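import Pool.Agent.Helper76.PC.Stmts

/-!
MP_c33217_co, module EV: soundness of the evaluation of the certificates.
-/

namespace Pool.Agent.Helper76.PC

open Finset

/-! ### Numerical lemmas -/

theorem ev_mulc (a b : ℕ) : a * b ≤ mulc a b * DD := by
  unfold mulc DD
  generalize a * b = t
  omega

theorem ev_DDpos : (0 : ℝ) < (DD : ℝ) := by
  unfold DD
  norm_num

theorem ev_Wpos (G : Gr) : 0 < W G := Real.exp_pos _

theorem ev_ccnn : 0 ≤ cc := by
  unfold cc
  have h : 0 ≤ Real.log 108 := Real.log_nonneg (by norm_num)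
  positivity

theorem ev_UUanti {k k' : ℕ} (h : k' ≤ k) : UU k ≤ UU k' := by
  unfold UU
  apply Real.exp_le_exp.2
  have h1 : (k' : ℝ) ≤ (k : ℝ) := by exact_mod_cast h
  have h2 := mul_le_mul_of_nonneg_left h1 ev_ccnn
  nlinarith

theorem ev_factor {p w wH q : ℝ} {A x : ℕ} (hw : 0 ≤ w) (h1 : p * DD ≤ (x : ℝ) * wH)
    (h2 : wH = w * q) (h3 : q * DD ≤ (A : ℝ)) : p * DD ≤ ((mulc A x : ℕ) : ℝ) * w := by
  have hm : ((A : ℝ) * x) ≤ ((mulc A x : ℕ) : ℝ) * DD := by exact_mod_cast ev_mulc A x
  have hD := ev_DDpos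
  have hx : (0 : ℝ) ≤ x := Nat.cast_nonneg x
  have h4 : (x : ℝ) * q ≤ ((mulc A x : ℕ) : ℝ) := by
    have h5 : ((x : ℝ) * q) * DD ≤ ((mulc A x : ℕ) : ℝ) * DD := by
      calc ((x : ℝ) * q) * DD = x * (q * DD) := by ring
        _ ≤ x * A := mul_le_mul_of_nonneg_left h3 hx
        _ = A * x := by ring
        _ ≤ _ := hm
    exact le_of_mul_le_mul_right h5 hD
  calc p * DD ≤ (x : ℝ) * wH := h1
    _ = (x * q) * w := by rw [h2]; ring
    _ ≤ _ := mul_le_mul_of_nonneg_right h4 hw

/-! ### The statements for the two modes -/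

/-- the statement for configurations -/
def ev_Cfg (c : Cert) : Prop := ∀ (K : Cfg) (b : ℕ), ev c K .cfg = some b →
  ∀ G φ f, Emb G φ f K → Below G → (P G : ℝ) * DD ≤ b * W G

/-- the statement for lists, deletion of both vertices -/
def ev_LstF (c : Cert) : Prop := ∀ (K : Cfg) (r : Vx) (ys : List ℕ) (S : ℕ),
  ev c K (.lst r false ys) = some S →
  ∀ G φ f, Emb G φ f K → Below G → r ∈ K → full r = true → (∀ y ∈ ys, y ∈ r.nb) → ys.Nodup →
  (∑ y ∈ ys.toFinset, (P (del (del G (φ r.id)) (φ y)) : ℝ)) * DD ≤ S * W G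

/-- the statement for lists, deletion of the edge -/
def ev_LstT (c : Cert) : Prop := ∀ (K : Cfg) (r : Vx) (ys : List ℕ) (S : ℕ),
  ev c K (.lst r true ys) = some S →
  ∀ G φ f, Emb G φ f K → Below G → r ∈ K → (∀ y ∈ ys, y ∈ r.nb) → ys.Nodup →
  (∑ y ∈ ys.toFinset, (P (delE G (φ r.id) (φ y)) : ℝ)) * DD ≤ S * W G

theorem ev_below {G H : Gr} (hG : Below G) (hs : size H < size G) : Below H :=
  fun H' h => hG H' (lt_trans h hs)

theorem ev_child {G H : Gr} (hG : Below G) (hs : size H < size G) {c : Cert} (ih : ev_Cfg c)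
    {K' : Cfg} {ψ : ℕ → ℕ} {f : Bool} (hE : Emb H ψ f K') :
    (P H : ℝ) * DD ≤ ((getDD (ev c K' .cfg) : ℕ) : ℝ) * W H := by
  cases hev : ev c K' .cfg with
  | none =>
    have h1 : (P H : ℝ) ≤ W H := hG H hs
    show (P H : ℝ) * DD ≤ ((DD : ℕ) : ℝ) * W H
    have := mul_le_mul_of_nonneg_right h1 ev_DDpos.le
    linarith
  | some b => exact ih K' b hev H ψ f hE (ev_below hG hs)

/-- a child with both vertices deleted -/
theorem ev_childD (hWD : ST_WD) (hNUM : ST_NUM) (hEDE2 : ST_EDE2) {G : Gr} {φ : ℕ → ℕ} {f : Bool}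
    {K : Cfg} (hE : Emb G φ f K) (hG : Below G) {c : Cert} (ih : ev_Cfg c) {r : Vx} (hr : r ∈ K)
    {y : ℕ} (hy : y ∈ r.nb) {k : ℕ} (hk : k ≤ (G.N (φ r.id)).card + (G.N (φ y)).card) :
    (P (del (del G (φ r.id)) (φ y)) : ℝ) * DD ≤
      ((mulc (Uc k) (getDD (ev c (del2 r y K) .cfg)) : ℕ) : ℝ) * W G := by
  obtain ⟨h1, h2⟩ := hWD G (φ r.id) (φ y) (hE.adj r hr y hy)
  refine ev_factor (ev_Wpos G).le (ev_child hG h2 ih (hEDE2 G φ f K hE r hr y)) h1 ?_
  have h3 := ev_UUanti hk
  have h4 := hNUM.1 k
  have h5 := mul_le_mul_of_nonneg_right h3 ev_DDpos.le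
  linarith

/-- a child with the edge deleted -/
theorem ev_childE (hWE : ST_WE) (hNUM : ST_NUM) (hEDELE : ST_EDELE) {G : Gr} {φ : ℕ → ℕ}
    {f : Bool} {K : Cfg} (hE : Emb G φ f K) (hG : Below G) {c : Cert} (ih : ev_Cfg c) {r : Vx}
    (hr : r ∈ K) {y : ℕ} (hy : y ∈ r.nb) :
    (P (delE G (φ r.id) (φ y)) : ℝ) * DD ≤
      ((mulc Ec (getDD (ev c (delEC r.id y K) .cfg)) : ℕ) : ℝ) * W G := by
  obtain ⟨h1, h2⟩ := hWE G (φ r.id) (φ y) (hE.adj r hr y hy)
  exact ev_factor (ev_Wpos G).le (ev_child hG h2 ih (hEDELE G φ f K hE r hr y hy)) h1 hNUM.2.1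

/-! ### Equations of the evaluation -/

theorem ev_vert_eq (v : ℕ) (l : Cert) (K : Cfg) : ev (.vert v l) K .cfg = (match getV v K with
      | none => none
      | some r => bif full r then ev l K (.lst r false r.nb) else none) := rfl

theorem ev_star_eq (v : ℕ) (l : Cert) (K : Cfg) : ev (.star v l) K .cfg = (match getV v K with
      | none => none
      | some r => bif Nat.beq r.lo r.hi && Nat.ble 2 r.hi then
          (match ev l K (.lst r true r.nb) with
            | none => none
            | some S => some ((S + (r.hi - lenN r.nb) * Ec + (r.hi - 2)) / (r.hi - 1)))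
          else none) := rfl

theorem ev_contr_eq (v : ℕ) (c : Cert) (K : Cfg) : ev (.contr v c) K .cfg = (match getV v K with
      | none => none
      | some r => (match r.nb with
          | [a, b] => (match getV a K, getV b K with
              | some ra, some rb =>
                bif full r && (noHexA K v ra rb || noHexA K v rb ra) then
                  some (mulc Kap (getDD (ev c (contrC r ra rb K) .cfg))) else none
              | _, _ => none)
          | _ => none)) := rfl

theorem ev_edge_eq (a b : ℕ) (c1 c2 : Cert) (K : Cfg) : ev (.edge a b c1 c2) K .cfg =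
    (match getV a K, getV b K with
      | some ra, some rb => bif memB b ra.nb then
          some (mulc Ec (getDD (ev c1 (delEC a b K) .cfg)) +
            mulc (Uc (ra.lo + rb.lo)) (getDD (ev c2 (del2 ra b K) .cfg))) else none
      | _, _ => none) := rfl

theorem ev_cons_eq (y : ℕ) (c l : Cert) (K : Cfg) (r : Vx) (st : Bool) (ys : List ℕ) :
    ev (.cons y c l) K (.lst r st ys) = (match getV y K with
      | none => none
      | some q => bif memB y ys then
          (match ev l K (.lst r st (remv y ys)) with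
            | none => none
            | some S => some (S +
              (bif st then mulc Ec (getDD (ev c (delEC r.id y K) .cfg))
               else mulc (Uc (r.hi + q.lo)) (getDD (ev c (del2 r y K) .cfg)))))
          else none) := rfl

theorem ev_nil_eq0 (K : Cfg) (r : Vx) (st : Bool) : ev .nil K (.lst r st []) = some 0 := rfl

theorem ev_nil_eq1 (K : Cfg) (r : Vx) (st : Bool) (y : ℕ) (ys : List ℕ) :
    ev .nil K (.lst r st (y :: ys)) = none := rfl

theorem ev_nil_eq2 (K : Cfg) : ev .nil K .cfg = none := rfl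

theorem ev_cons_eq2 (y : ℕ) (c l : Cert) (K : Cfg) : ev (.cons y c l) K .cfg = none := rfl

theorem ev_vert_eq2 (v : ℕ) (l : Cert) (K : Cfg) (r : Vx) (st : Bool) (ys : List ℕ) :
    ev (.vert v l) K (.lst r st ys) = none := rfl

theorem ev_star_eq2 (v : ℕ) (l : Cert) (K : Cfg) (r : Vx) (st : Bool) (ys : List ℕ) :
    ev (.star v l) K (.lst r st ys) = none := rfl

theorem ev_contr_eq2 (v : ℕ) (l : Cert) (K : Cfg) (r : Vx) (st : Bool) (ys : List ℕ) :
    ev (.contr v l) K (.lst r st ys) = none := rfl

theorem ev_edge_eq2 (a b : ℕ) (c1 c2 : Cert) (K : Cfg) (r : Vx) (st : Bool) (ys : List ℕ) :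
    ev (.edge a b c1 c2) K (.lst r st ys) = none := rfl

/-! ### The constructors -/

/-- neighbourhood of a full vertex as an image -/
theorem ev_img (hFULL : ST_FULL) {G : Gr} {φ : ℕ → ℕ} {f : Bool} {K : Cfg}
    (hE : Emb G φ f K) {r : Vx} (hr : r ∈ K) (hf : full r = true) :
    G.N (φ r.id) = r.nb.toFinset.image φ := by
  have h := ((hFULL G φ f K hE r hr).2.2 hf).2.2
  ext x
  rw [h x]
  simp only [Finset.mem_image, List.mem_toFinset]

theorem ev_inj (hFULL : ST_FULL) {G : Gr} {φ : ℕ → ℕ} {f : Bool} {K : Cfg}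
    (hE : Emb G φ f K) {r : Vx} (hr : r ∈ K) :
    ∀ x ∈ r.nb.toFinset, ∀ y ∈ r.nb.toFinset, φ x = φ y → x = y := by
  have h := (hFULL G φ f K hE r hr).1
  intro x hx y hy hxy
  exact List.inj_on_of_nodup_map h (List.mem_toFinset.1 hx) (List.mem_toFinset.1 hy) hxy

theorem ev_vert (hLST : ST_LST) (hFULL : ST_FULL) (hEXP : ST_EXP) (v : ℕ) (l : Cert)
    (ih : ev_LstF l) : ev_Cfg (.vert v l) := by
  intro K b hb G φ f hE hG
  rw [ev_vert_eq] at hb
  cases hv : getV v K with
  | none => rw [hv] at hb; cases hb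
  | some r =>
    rw [hv] at hb
    obtain ⟨hr, hid⟩ := hLST.2.2.2.2.2.2.1 v K r hv
    cases hf : full r with
    | false => simp [hf] at hb
    | true =>
      simp only [hf, cond_true] at hb
      have h1 := ih K r r.nb b hb G φ f hE hG hr hf (fun y hy => hy) (hE.nd r hr)
      have h2 := hEXP G (φ r.id) (hE.memV r hr)
      rw [ev_img hFULL hE hr hf, Finset.sum_image (ev_inj hFULL hE hr)] at h2
      rw [h2]
      push_cast
      exact h1

theorem ev_edge (hLST : ST_LST) (hEDE2 : ST_EDE2) (hEDELE : ST_EDELE) (hDE : ST_DE)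
    (hWD : ST_WD) (hWE : ST_WE) (hNUM : ST_NUM) (a b : ℕ) (c1 c2 : Cert)
    (ih1 : ev_Cfg c1) (ih2 : ev_Cfg c2) : ev_Cfg (.edge a b c1 c2) := by
  intro K B hB G φ f hE hG
  rw [ev_edge_eq] at hB
  cases ha : getV a K with
  | none => rw [ha] at hB; cases hB
  | some ra =>
    cases hb : getV b K with
    | none => rw [ha, hb] at hB; cases hB
    | some rb =>
      rw [ha, hb] at hB
      obtain ⟨hra, hida⟩ := hLST.2.2.2.2.2.2.1 a K ra ha
      obtain ⟨hrb, hidb⟩ := hLST.2.2.2.2.2.2.1 b K rb hb
      cases hm : memB b ra.nb with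
      | false => simp only [hm, cond_false] at hB; cases hB
      | true =>
        simp only [hm, cond_true, Option.some.injEq] at hB
        have hmem : b ∈ ra.nb := (hLST.1 b ra.nb).1 hm
        have hadj := hE.adj ra hra b hmem
        have hk : ra.lo + rb.lo ≤ (G.N (φ ra.id)).card + (G.N (φ b)).card := by
          have h1 := hE.lo ra hra
          have h2 := hE.lo rb hrb
          rw [hidb] at h2
          omega
        have h1 := ev_childE hWE hNUM hEDELE hE hG ih1 hra hmem
        have h2 := ev_childD hWD hNUM hEDE2 hE hG ih2 hra hmem hk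
        have h3 := hDE G (φ ra.id) (φ b) hadj
        rw [← hB, h3]
        rw [hida] at h1 h2 ⊢
        push_cast
        linarith

theorem ev_nohex_symm {G : Gr} {v a b : ℕ} (h : NoHex G v b a) : NoHex G v a b := by
  intro x y z hx hxv hz hzv hxz hyx hyz hya hyb
  exact h z y x hz hzv hx hxv (Ne.symm hxz) hyz hyx hyb hya

theorem ev_contr (hLST : ST_LST) (hFULL : ST_FULL) (hECON : ST_ECON) (hNHEX : ST_NHEX)
    (hCEX : ST_CEX) (hCP : ST_CP) (hWC : ST_WC) (hNUM : ST_NUM) (v : ℕ) (c : Cert)
    (ih : ev_Cfg c) : ev_Cfg (.contr v c) := by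
  intro K B hB G φ f hE hG
  rw [ev_contr_eq] at hB
  cases hv : getV v K with
  | none => rw [hv] at hB; cases hB
  | some r =>
    rw [hv] at hB
    obtain ⟨hr, hid⟩ := hLST.2.2.2.2.2.2.1 v K r hv
    obtain ⟨rid, rsd, rlo, rhi, rnb⟩ := r
    match rnb, hv, hB, hr, hid with
    | [], _, hB, _, _ => exact absurd hB (by simp)
    | [_], _, hB, _, _ => exact absurd hB (by simp)
    | _ :: _ :: _ :: _, _, hB, _, _ => exact absurd hB (by simp)
    | [a, b], hv, hB, hr, hid =>
      simp only at hB hid
      cases ha : getV a K with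
      | none => rw [ha] at hB; cases hB
      | some ra =>
        cases hb : getV b K with
        | none => rw [ha, hb] at hB; cases hB
        | some rb =>
          rw [ha, hb] at hB
          obtain ⟨hra, hida⟩ := hLST.2.2.2.2.2.2.1 a K ra ha
          obtain ⟨hrb, hidb⟩ := hLST.2.2.2.2.2.2.1 b K rb hb
          simp only at hB
          cases ht : (full ⟨rid, rsd, rlo, rhi, [a, b]⟩ &&
              (noHexA K v ra rb || noHexA K v rb ra)) with
          | false => rw [ht] at hB; cases hB
          | true =>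
            rw [ht] at hB
            simp only [cond_true, Option.some.injEq] at hB
            rw [Bool.and_eq_true, Bool.or_eq_true] at ht
            obtain ⟨hf, hh⟩ := ht
            have hN : G.N (φ rid) = {φ ra.id, φ rb.id} := by
              have h1 := ev_img hFULL hE hr hf
              simp only at h1
              rw [h1, hida, hidb]
              simp
            have hne : φ ra.id ≠ φ rb.id := by
              have h1 := (hFULL G φ f K hE _ hr).1
              rw [hida, hidb]
              simpa using h1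
            have hnh : NoHex G (φ rid) (φ ra.id) (φ rb.id) := by
              rcases hh with hh | hh
              · rw [← hid] at hh
                exact hNHEX G φ f K hE _ hr ra hra rb hrb hN hne hh
              · rw [← hid] at hh
                refine ev_nohex_symm ?_
                refine hNHEX G φ f K hE _ hr rb hrb ra hra ?_ hne.symm hh
                rw [Finset.pair_comm]
                exact hN
            obtain ⟨H, hH⟩ := hCEX G (φ rid) (φ ra.id) (φ rb.id) hN hne hnh
            have hP := hCP G H _ _ _ hN hne hnh hH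
            obtain ⟨hW, hs⟩ := hWC G H _ _ _ hN hne hnh hH
            have hEH := hECON G H φ f K hE _ hr ra hra rb hrb hN hne hnh hH
            rw [hP, ← hB]
            exact ev_factor (ev_Wpos G).le (ev_child hG hs ih hEH) hW hNUM.2.2

theorem ev_ceil (T d : ℕ) (hd : 2 ≤ d) : T ≤ ((T + (d - 2)) / (d - 1)) * (d - 1) := by
  obtain ⟨m, rfl⟩ : ∃ m, d = m + 2 := ⟨d - 2, by omega⟩
  have h1 : m + 2 - 2 = m := by omega
  have h2 : m + 2 - 1 = m + 1 := by omega
  rw [h1, h2]
  have h3 := Nat.div_add_mod (T + m) (m + 1)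
  have h4 := Nat.mod_lt (T + m) (show m + 1 > 0 by omega)
  have h5 : (T + m) / (m + 1) * (m + 1) = (m + 1) * ((T + m) / (m + 1)) := Nat.mul_comm _ _
  omega

theorem ev_star (hLST : ST_LST) (hFULL : ST_FULL) (hEXP : ST_EXP) (hDE : ST_DE) (hWE : ST_WE)
    (hNUM : ST_NUM) (v : ℕ) (l : Cert) (ih : ev_LstT l) : ev_Cfg (.star v l) := by
  intro K B hB G φ f hE hG
  rw [ev_star_eq] at hB
  cases hv : getV v K with
  | none => rw [hv] at hB; cases hB
  | some r =>
    rw [hv] at hB
    obtain ⟨hr, hid⟩ := hLST.2.2.2.2.2.2.1 v K r hv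
    simp only at hB
    cases ht : (Nat.beq r.lo r.hi && Nat.ble 2 r.hi) with
    | false => rw [ht] at hB; cases hB
    | true =>
      rw [ht] at hB
      simp only [cond_true] at hB
      rw [Bool.and_eq_true] at ht
      have hlh : r.lo = r.hi := Nat.eq_of_beq_eq_true ht.1
      have h2 : 2 ≤ r.hi := Nat.le_of_ble_eq_true ht.2
      cases hS : ev l K (.lst r true r.nb) with
      | none => rw [hS] at hB; cases hB
      | some S =>
        rw [hS] at hB
        simp only [Option.some.injEq] at hB
        have hcard : (G.N (φ r.id)).card = r.hi := by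
          have h3 := hE.lo r hr
          have h4 := hE.hi r hr
          omega
        have hnd := hE.nd r hr
        have h5 := ih K r r.nb S hS G φ f hE hG hr (fun y hy => hy) hnd
        rw [hLST.2.1] at hB
        have hsub : r.nb.toFinset.image φ ⊆ G.N (φ r.id) := by
          intro x hx
          rw [Finset.mem_image] at hx
          obtain ⟨y, hy, rfl⟩ := hx
          exact hE.adj r hr y (List.mem_toFinset.1 hy)
        have hic : (r.nb.toFinset.image φ).card = r.nb.length := by
          rw [Finset.card_image_of_injOn, List.toFinset_card_of_nodup hnd]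
          intro x hx y hy hxy
          exact ev_inj hFULL hE hr x hx y hy hxy
        have hlen : r.nb.length ≤ r.hi := by
          have h6 := Finset.card_le_card hsub
          omega
        -- the sum of the deletions of edges
        have hsum : ((r.hi : ℝ) - 1) * P G = ∑ x ∈ G.N (φ r.id), (P (delE G (φ r.id) x) : ℝ) := by
          have h7 : ∑ x ∈ G.N (φ r.id), (P G : ℝ) = ∑ x ∈ G.N (φ r.id),
              ((P (delE G (φ r.id) x) : ℝ) + (P (del (del G (φ r.id)) x) : ℝ)) := by
            apply Finset.sum_congr rfl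
            intro x hx
            have h8 := hDE G (φ r.id) x hx
            exact_mod_cast h8
          have h9 : (P G : ℝ) = ∑ x ∈ G.N (φ r.id), (P (del (del G (φ r.id)) x) : ℝ) := by
            exact_mod_cast hEXP G (φ r.id) (hE.memV r hr)
          rw [Finset.sum_const, Finset.sum_add_distrib, ← h9, hcard, nsmul_eq_mul] at h7
          linarith
        have hrest : (∑ x ∈ G.N (φ r.id) \ r.nb.toFinset.image φ,
            (P (delE G (φ r.id) x) : ℝ)) * DD ≤ ((r.hi - r.nb.length : ℕ) : ℝ) * (Ec * W G) := by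
          rw [Finset.sum_mul]
          have h10 : ∀ x ∈ G.N (φ r.id) \ r.nb.toFinset.image φ,
              (P (delE G (φ r.id) x) : ℝ) * DD ≤ Ec * W G := by
            intro x hx
            have hx1 : x ∈ G.N (φ r.id) := (Finset.mem_sdiff.1 hx).1
            obtain ⟨hw1, hw2⟩ := hWE G (φ r.id) x hx1
            have h11 : (P (delE G (φ r.id) x) : ℝ) ≤ W (delE G (φ r.id) x) := hG _ hw2
            have h12 := mul_le_mul_of_nonneg_right h11 ev_DDpos.le
            have h13 := mul_le_mul_of_nonneg_left hNUM.2.1 (ev_Wpos G).le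
            rw [hw1] at h12
            linarith
          have h14 := Finset.sum_le_card_nsmul _ _ _ h10
          rw [Finset.card_sdiff_of_subset hsub, hcard, hic, nsmul_eq_mul] at h14
          exact h14
        have hsplit : ∑ x ∈ G.N (φ r.id), (P (delE G (φ r.id) x) : ℝ) =
            (∑ x ∈ G.N (φ r.id) \ r.nb.toFinset.image φ, (P (delE G (φ r.id) x) : ℝ)) +
            ∑ y ∈ r.nb.toFinset, (P (delE G (φ r.id) (φ y)) : ℝ) := by
          rw [← Finset.sum_sdiff hsub, Finset.sum_image (ev_inj hFULL hE hr)]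
        have hW := ev_Wpos G
        have hT : ((r.hi : ℝ) - 1) * (P G * DD) ≤
            ((S + (r.hi - r.nb.length) * Ec : ℕ) : ℝ) * W G := by
          have h15 : ((r.hi : ℝ) - 1) * (P G * DD) = (((r.hi : ℝ) - 1) * P G) * DD := by ring
          rw [h15, hsum, hsplit]
          push_cast at hrest h5 ⊢
          linarith
        have hceil := ev_ceil (S + (r.hi - r.nb.length) * Ec) r.hi h2
        rw [hB] at hceil
        have hc2 : ((S + (r.hi - r.nb.length) * Ec : ℕ) : ℝ) ≤ (B : ℝ) * ((r.hi : ℝ) - 1) := by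
          have h16 : ((r.hi - 1 : ℕ) : ℝ) = (r.hi : ℝ) - 1 := by
            rw [Nat.cast_sub (by omega)]
            simp
          rw [← h16]
          exact_mod_cast hceil
        have hpos : (0 : ℝ) < (r.hi : ℝ) - 1 := by
          have h17 : (2 : ℝ) ≤ (r.hi : ℝ) := by exact_mod_cast h2
          linarith
        have h18 : ((r.hi : ℝ) - 1) * (P G * DD) ≤ ((r.hi : ℝ) - 1) * (B * W G) := by
          have h19 := mul_le_mul_of_nonneg_right hc2 hW.le
          linarith
        exact le_of_mul_le_mul_left h18 hpos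

theorem ev_insert (hLST : ST_LST) {y : ℕ} {ys : List ℕ} (hy : y ∈ ys) (g : ℕ → ℝ) :
    ∑ x ∈ ys.toFinset, g x = g y + ∑ x ∈ (remv y ys).toFinset, g x := by
  have hrem := hLST.2.2.1
  have h1 : ys.toFinset = insert y (remv y ys).toFinset := by
    ext x
    rw [Finset.mem_insert, List.mem_toFinset, List.mem_toFinset, hrem]
    by_cases hx : x = y
    · subst hx; simp [hy]
    · simp [hx]
  rw [h1, Finset.sum_insert]
  rw [List.mem_toFinset, hrem]
  simp

/-- inversion of the evaluation at a list constructor; the last term is kept abstract -/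
theorem ev_opt {g : Option Vx} {t : Bool} {o : Option ℕ} {F : Vx → ℕ} {B : ℕ}
    (h : (match g with
      | none => none
      | some q => bif t then
          (match o with
            | none => none
            | some S => some (S + F q))
          else none) = some B) : ∃ q S, g = some q ∧ t = true ∧ o = some S ∧ S + F q = B := by
  cases g with
  | none => cases h
  | some q =>
    cases t with
    | false => cases h
    | true =>
      cases o with
      | none => cases h
      | some S =>
        refine ⟨q, S, rfl, rfl, rfl, ?_⟩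
        exact Option.some.inj h

theorem ev_consF (hLST : ST_LST) (hFULL : ST_FULL) (hEDE2 : ST_EDE2) (hWD : ST_WD)
    (hNUM : ST_NUM) (y : ℕ) (c l : Cert) (ih1 : ev_Cfg c) (ih2 : ev_LstF l) :
    ev_LstF (.cons y c l) := by
  intro K r ys B hB G φ f hE hG hr hf hys hnd
  rw [ev_cons_eq] at hB
  obtain ⟨q, S, hv, hm, hS, hB⟩ := ev_opt hB
  rw [cond_false] at hB
  obtain ⟨hq, hid⟩ := hLST.2.2.2.2.2.2.1 y K q hv
  have hmem : y ∈ ys := (hLST.1 y ys).1 hm
  have hk : r.hi + q.lo ≤ (G.N (φ r.id)).card + (G.N (φ y)).card := by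
    have h1 := ((hFULL G φ f K hE r hr).2.2 hf).1
    have h2 := hE.lo q hq
    rw [hid] at h2
    omega
  have h1 := ev_childD hWD hNUM hEDE2 hE hG ih1 hr (hys y hmem) hk
  have h2 := ih2 K r (remv y ys) S hS G φ f hE hG hr hf
    (fun z hz => hys z (((hLST.2.2.1 y z ys).1 hz).1)) (hLST.2.2.2.1 y ys hnd)
  rw [ev_insert hLST hmem]
  generalize mulc (Uc (r.hi + q.lo)) (getDD (ev c (del2 r y K) .cfg)) = t at hB h1
  rw [← hB]
  push_cast
  linarith

theorem ev_consT (hLST : ST_LST) (hEDELE : ST_EDELE) (hWE : ST_WE)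
    (hNUM : ST_NUM) (y : ℕ) (c l : Cert) (ih1 : ev_Cfg c) (ih2 : ev_LstT l) :
    ev_LstT (.cons y c l) := by
  intro K r ys B hB G φ f hE hG hr hys hnd
  rw [ev_cons_eq] at hB
  obtain ⟨q, S, hv, hm, hS, hB⟩ := ev_opt hB
  rw [cond_true] at hB
  have hmem : y ∈ ys := (hLST.1 y ys).1 hm
  have h1 := ev_childE hWE hNUM hEDELE hE hG ih1 hr (hys y hmem)
  have h2 := ih2 K r (remv y ys) S hS G φ f hE hG hr
    (fun z hz => hys z (((hLST.2.2.1 y z ys).1 hz).1)) (hLST.2.2.2.1 y ys hnd)
  rw [ev_insert hLST hmem]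
  generalize mulc Ec (getDD (ev c (delEC r.id y K) .cfg)) = t at hB h1
  rw [← hB]
  push_cast
  linarith

theorem ev_nilF : ev_LstF .nil := by
  intro K r ys B hB G φ f hE hG hr hf hys hnd
  cases ys with
  | nil =>
    rw [ev_nil_eq0] at hB
    cases hB
    simp
  | cons y ys => rw [ev_nil_eq1] at hB; cases hB

theorem ev_nilT : ev_LstT .nil := by
  intro K r ys B hB G φ f hE hG hr hys hnd
  cases ys with
  | nil =>
    rw [ev_nil_eq0] at hB
    cases hB
    simp
  | cons y ys => rw [ev_nil_eq1] at hB; cases hB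

theorem st_EV (hLST : ST_LST) (hFULL : ST_FULL) (_hEDEL : ST_EDEL) (hEDE2 : ST_EDE2)
    (hEDELE : ST_EDELE) (hECON : ST_ECON) (hNHEX : ST_NHEX) (hCEX : ST_CEX) (hEXP : ST_EXP)
    (hDE : ST_DE) (hCP : ST_CP) (hWD : ST_WD) (hWE : ST_WE) (hWC : ST_WC) (hNUM : ST_NUM) :
    ST_EV := by
  have key : ∀ c : Cert, ev_Cfg c ∧ ev_LstF c ∧ ev_LstT c := by
    intro c
    induction c with
    | nil =>
      refine ⟨?_, ev_nilF, ev_nilT⟩
      intro K b hb
      rw [ev_nil_eq2] at hb
      cases hb
    | vert v l ih =>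
      refine ⟨ev_vert hLST hFULL hEXP v l ih.2.1, ?_, ?_⟩
      · intro K r ys b hb
        rw [ev_vert_eq2] at hb
        cases hb
      · intro K r ys b hb
        rw [ev_vert_eq2] at hb
        cases hb
    | edge a b c1 c2 ih1 ih2 =>
      refine ⟨ev_edge hLST hEDE2 hEDELE hDE hWD hWE hNUM a b c1 c2 ih1.1 ih2.1, ?_, ?_⟩
      · intro K r ys b hb
        rw [ev_edge_eq2] at hb
        cases hb
      · intro K r ys b hb
        rw [ev_edge_eq2] at hb
        cases hb
    | contr v c ih =>
      refine ⟨ev_contr hLST hFULL hECON hNHEX hCEX hCP hWC hNUM v c ih.1, ?_, ?_⟩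
      · intro K r ys b hb
        rw [ev_contr_eq2] at hb
        cases hb
      · intro K r ys b hb
        rw [ev_contr_eq2] at hb
        cases hb
    | star v l ih =>
      refine ⟨ev_star hLST hFULL hEXP hDE hWE hNUM v l ih.2.2, ?_, ?_⟩
      · intro K r ys b hb
        rw [ev_star_eq2] at hb
        cases hb
      · intro K r ys b hb
        rw [ev_star_eq2] at hb
        cases hb
    | cons y c l ih1 ih2 =>
      refine ⟨?_, ev_consF hLST hFULL hEDE2 hWD hNUM y c l ih1.1 ih2.2.1,
        ev_consT hLST hEDELE hWE hNUM y c l ih1.1 ih2.2.2⟩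
      intro K b hb
      rw [ev_cons_eq2] at hb
      cases hb
  intro c K b hb G φ f hE hG
  exact (key c).1 K b hb G φ f hE hG

end Pool.Agent.Helper76.PC
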